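import Pool.Agent.H18.HIT.Targets

/-!
# The coefficient of a proper factor is algebraic of degree at least two
-/

open MvPolynomial
open Pool.Agent.H12.ZD (pmap v O Res DenseOrbit NoInv)
open Pool.Agent.H18.HIT

namespace Pool.Agent.H41.HIT

theorem alc_hom {A : Type} (F : Type) [CommRing A] [IsDomain A] [Field F] [Algebra A F]
    [IsFractionRing A F] (Y : Polynomial A) (hY : Y.Monic)
    (hirr : Irreducible (Y.map (algebraMap A F))) (h2 : 2 ≤ Y.natDegree) (g₀ g₁ : A)
    (hg : ¬ (g₀ = 0 ∧ g₁ = 0)) :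
    ∑ i ∈ Finset.range (Y.natDegree + 1), Y.coeff i * g₀ ^ i * g₁ ^ (Y.natDegree - i) ≠ 0 := by
  intro hs
  by_cases h1 : g₁ = 0
  · have h0 : g₀ ≠ 0 := fun h => hg ⟨h, h1⟩
    rw [Finset.sum_range_succ, hY.coeff_natDegree, Nat.sub_self, pow_zero, one_mul, mul_one,
      Finset.sum_eq_zero, zero_add] at hs
    · exact pow_ne_zero _ h0 hs
    · intro i hi
      have : Y.natDegree - i ≠ 0 := by
        have := Finset.mem_range.mp hi
        omega
      rw [h1, zero_pow this, mul_zero]
  · have h1' : algebraMap A F g₁ ≠ 0 := by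
      intro h
      exact h1 ((IsFractionRing.injective A F) (h.trans (map_zero _).symm))
    have hroot : (Y.map (algebraMap A F)).IsRoot (algebraMap A F g₀ / algebraMap A F g₁) := by
      rw [Polynomial.IsRoot.def]
      have h3 : (algebraMap A F g₁) ^ Y.natDegree *
          (Y.map (algebraMap A F)).eval (algebraMap A F g₀ / algebraMap A F g₁) = 0 := by
        rw [← map_zero (algebraMap A F), ← hs, map_sum, Polynomial.eval_map,
          Polynomial.eval₂_eq_sum_range, Finset.mul_sum]
        apply Finset.sum_congr rfl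
        intro i hi
        have hi' : i ≤ Y.natDegree := Nat.lt_succ_iff.mp (Finset.mem_range.mp hi)
        rw [map_mul, map_mul, map_pow, map_pow, div_pow]
        have h4 : (algebraMap A F g₁) ^ Y.natDegree =
            (algebraMap A F g₁) ^ (Y.natDegree - i) * (algebraMap A F g₁) ^ i := by
          rw [← pow_add, Nat.sub_add_cancel hi']
        rw [h4]
        field_simp
      rcases mul_eq_zero.mp h3 with h | h
      · exact absurd h (pow_ne_zero _ h1')
      · exact h
    have h5 := Polynomial.degree_eq_one_of_irreducible_of_root hirr hroot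
    have h6 : (Y.map (algebraMap A F)).natDegree = 1 := Polynomial.natDegree_eq_of_degree_eq_some h5
    rw [hY.natDegree_map] at h6
    omega

theorem alc_field (A F L : Type) [CommRing A] [IsDomain A] [IsIntegrallyClosed A] [Field F]
    [Algebra A F] [IsFractionRing A F] [Field L] [Algebra A L] [Algebra F L] [IsScalarTower A F L]
    (Ψ : Polynomial A) (hΨ : Ψ.Monic) (hirr : Irreducible Ψ) (G : Polynomial L) (hG : G.Monic)
    (hd : G ∣ Ψ.map (algebraMap A L)) (h0 : 0 < G.natDegree) (h1 : G.natDegree < Ψ.natDegree) :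
    ∃ (j : ℕ) (Y : Polynomial A), 2 ≤ Y.natDegree ∧ Y.eval₂ (algebraMap A L) (G.coeff j) = 0 ∧
      ∀ g₀ g₁ : A, ¬ (g₀ = 0 ∧ g₁ = 0) →
        ∑ i ∈ Finset.range (Y.natDegree + 1), Y.coeff i * g₀ ^ i * g₁ ^ (Y.natDegree - i) ≠ 0 := by
  have hex : ∃ j, G.coeff j ∉ (algebraMap F L).range := by
    by_contra hc
    push Not at hc
    have hl : G ∈ Polynomial.lifts (algebraMap F L) := by
      rw [Polynomial.lifts_iff_coeff_lifts]
      intro n
      obtain ⟨x, hx⟩ := hc n
      exact ⟨x, hx⟩
    obtain ⟨G', hG', hdeg, hm⟩ := Polynomial.lifts_and_natDegree_eq_and_monic hl hG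
    have hd' : G' ∣ Ψ.map (algebraMap A F) := by
      rw [← Polynomial.map_dvd_map' (algebraMap F L), hG', Polynomial.map_map,
        ← IsScalarTower.algebraMap_eq A F L]
      exact hd
    have hirr' : Irreducible (Ψ.map (algebraMap A F)) :=
      (hΨ.irreducible_iff_irreducible_map_fraction_map (K := F)).mp hirr
    rcases (hirr'.dvd_iff).mp hd' with h | h
    · have := Polynomial.natDegree_eq_zero_of_isUnit h
      omega
    · have := Polynomial.natDegree_eq_of_degree_eq (Polynomial.degree_eq_degree_of_associated h)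
      rw [hΨ.natDegree_map] at this
      omega
  obtain ⟨j, hj⟩ := hex
  have hint : IsIntegral A (G.coeff j) := by
    have := integralClosure.mem_lifts_of_monic_of_dvd_map L hΨ hG hd
    rw [Polynomial.lifts_iff_coeff_lifts] at this
    obtain ⟨x, hx⟩ := this j
    rw [← hx]
    exact x.2
  have hmin : minpoly F (G.coeff j) = (minpoly A (G.coeff j)).map (algebraMap A F) :=
    minpoly.isIntegrallyClosed_eq_field_fractions' F hint
  have hintF : IsIntegral F (G.coeff j) := hint.tower_top
  have h2 : 2 ≤ (minpoly A (G.coeff j)).natDegree := by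
    have := (minpoly.two_le_natDegree_iff hintF).mpr hj
    rwa [hmin, (minpoly.monic hint).natDegree_map] at this
  refine ⟨j, minpoly A (G.coeff j), h2, minpoly.aeval A (G.coeff j), fun g₀ g₁ hg => ?_⟩
  apply alc_hom F _ (minpoly.monic hint) _ h2 g₀ g₁ hg
  rw [← hmin]
  exact minpoly.irreducible hintF

theorem alc_hom_field (A L : Type) [CommRing A] [IsDomain A] [IsIntegrallyClosed A]
    [Field L] (ψ : A →+* L) (hψ : Function.Injective ψ)
    (Ψ : Polynomial A) (hΨ : Ψ.Monic) (hirr : Irreducible Ψ) (G : Polynomial L) (hG : G.Monic)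
    (hd : G ∣ Ψ.map ψ) (h0 : 0 < G.natDegree) (h1 : G.natDegree < Ψ.natDegree) :
    ∃ (j : ℕ) (Y : Polynomial A), 2 ≤ Y.natDegree ∧ Y.eval₂ ψ (G.coeff j) = 0 ∧
      ∀ g₀ g₁ : A, ¬ (g₀ = 0 ∧ g₁ = 0) →
        ∑ i ∈ Finset.range (Y.natDegree + 1), Y.coeff i * g₀ ^ i * g₁ ^ (Y.natDegree - i) ≠ 0 := by
  letI : Algebra A L := ψ.toAlgebra
  letI : Algebra (FractionRing A) L := (IsFractionRing.lift (K := FractionRing A) hψ).toAlgebra
  haveI : IsScalarTower A (FractionRing A) L :=
    IsScalarTower.of_algebraMap_eq fun x =>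
      (IsFractionRing.lift_algebraMap (K := FractionRing A) hψ x).symm
  exact alc_field A (FractionRing A) L Ψ hΨ hirr G hG hd h0 h1

theorem alc_ring (A S : Type) [CommRing A] [IsDomain A] [IsIntegrallyClosed A]
    [CommRing S] [IsDomain S] (ψ : A →+* S) (hψ : Function.Injective ψ)
    (Ψ : Polynomial A) (hΨ : Ψ.Monic) (hirr : Irreducible Ψ) (G : Polynomial S) (hG : G.Monic)
    (hd : G ∣ Ψ.map ψ) (h0 : 0 < G.natDegree) (h1 : G.natDegree < Ψ.natDegree) :
    ∃ (j : ℕ) (Y : Polynomial A), 2 ≤ Y.natDegree ∧ Y.eval₂ ψ (G.coeff j) = 0 ∧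
      ∀ g₀ g₁ : A, ¬ (g₀ = 0 ∧ g₁ = 0) →
        ∑ i ∈ Finset.range (Y.natDegree + 1), Y.coeff i * g₀ ^ i * g₁ ^ (Y.natDegree - i) ≠ 0 := by
  have hinj : Function.Injective (algebraMap S (FractionRing S)) :=
    IsFractionRing.injective S (FractionRing S)
  obtain ⟨j, Y, h2, h3, h4⟩ := alc_hom_field A (FractionRing S)
    ((algebraMap S (FractionRing S)).comp ψ) (hinj.comp hψ) Ψ hΨ hirr
    (G.map (algebraMap S (FractionRing S))) (hG.map _)
    (by rw [← Polynomial.map_map]; exact Polynomial.map_dvd _ hd)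
    (by rw [hG.natDegree_map]; exact h0) (by rw [hG.natDegree_map]; exact h1)
  refine ⟨j, Y, h2, ?_, h4⟩
  rw [Polynomial.coeff_map, ← Polynomial.hom_eval₂] at h3
  exact hinj (h3.trans (map_zero _).symm)

theorem toPS_injective (p : Nat.Primes) : Function.Injective (toPS p) := by
  have h1 : Function.Injective (Int.castRingHom (O p)) := by
    have h2 : Function.Injective ((O p).subtype.comp (Int.castRingHom (O p))) := by
      have h3 : (O p).subtype.comp (Int.castRingHom (O p)) = Int.castRingHom Qb :=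
        Subsingleton.elim _ _
      rw [h3]
      exact Int.cast_injective
    intro a b hab
    exact h2 (congrArg (O p).subtype hab)
  have h4 : Function.Injective (Polynomial.mapRingHom (Int.castRingHom (O p))) :=
    Polynomial.map_injective _ h1
  exact (Polynomial.coe_injective (O p)).comp h4

theorem pf_ALC (hMFP : T_MFP) : T_ALC := by
  classical
  intro p Ψ E T hΨ hirr hfac J hJ hJ'
  have hcard : ∀ I : Finset (Fin E),
      (∏ a ∈ I, (Polynomial.X - Polynomial.C (T a))).natDegree = I.card := fun I =>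
    Polynomial.natDegree_finset_prod_X_sub_C_eq_card I T
  have hdeg : Ψ.natDegree = E := by
    have h1 : (Ψ.map (toPS p)).natDegree = Ψ.natDegree := hΨ.natDegree_map _
    rw [← h1, hfac, hcard, Finset.card_fin]
  apply alc_ring (Polynomial ℤ) (PowerSeries (O p)) (toPS p) (toPS_injective p) Ψ hΨ hirr
    (∏ a ∈ J, (Polynomial.X - Polynomial.C (T a))) (Polynomial.monic_prod_X_sub_C _ _)
  · rw [hfac]
    exact Finset.prod_dvd_prod_of_subset _ _ _ (Finset.subset_univ J)
  · rw [hcard]
    exact Finset.card_pos.mpr hJ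
  · rw [hcard, hdeg]
    have := Finset.card_lt_card (Finset.ssubset_univ_iff.mpr hJ')
    rwa [Finset.card_fin] at this

end Pool.Agent.H41.HIT
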