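import Pool.Agent.H18.HIT.Targets

/-!
# Roots near the values of the power series roots
-/

open MvPolynomial
open Pool.Agent.H12.ZD (pmap v O Res DenseOrbit NoInv)
open Pool.Agent.H18.HIT

namespace Pool.Agent.H41.HIT

open Pool.Agent.H12.ZD (v_nonneg v_zero v_mul v_pow v_one v_sub_comm v_add_lt v_sub_lt v_add_le'
  v_sub_le' v_eq_of_sub_lt isUnit_O)

theorem coe_int (p : Nat.Primes) (t : ℤ) : (((t : ℤ) : O p) : Qb) = (t : Qb) :=
  map_intCast (O p).subtype t

/-- evaluation at the integer `t` -/
noncomputable def evO (p : Nat.Primes) (t : ℤ) : Polynomial ℤ →+* O p :=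
  (Polynomial.evalRingHom ((t : ℤ) : O p)).comp (Polynomial.mapRingHom (Int.castRingHom (O p)))

theorem evO_eq (p : Nat.Primes) (t : ℤ) :
    (O p).subtype.comp (evO p t) = (Int.castRingHom Qb).comp (Polynomial.evalRingHom t) := by
  apply Polynomial.ringHom_ext
  · intro a
    simp [evO]
  · simp [evO]

theorem eval_map_eq (p : Nat.Primes) (Ψ : Polynomial (Polynomial ℤ)) (t : ℤ) (w : O p) :
    ((Ψ.map (Polynomial.evalRingHom t)).map (Int.castRingHom Qb)).eval (w : Qb) =
      ((Ψ.eval₂ (evO p t) w : O p) : Qb) := by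
  rw [Polynomial.map_map, ← evO_eq, Polynomial.eval_map]
  change Polynomial.eval₂ _ ((O p).subtype w) _ = (O p).subtype _
  rw [Polynomial.hom_eval₂]

/-- truncation is an approximation -/
theorem X_pow_dvd_sub_trunc {S : Type} [CommRing S] (f : PowerSeries S) (L : ℕ) :
    (PowerSeries.X : PowerSeries S) ^ L ∣ ((PowerSeries.trunc L f : Polynomial S) : PowerSeries S) - f := by
  rw [PowerSeries.X_pow_dvd_iff]
  intro m hm
  rw [map_sub, Polynomial.coeff_coe, PowerSeries.coeff_trunc, if_pos hm, sub_self]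

theorem v_evO_le (p : Nat.Primes) (Ψ : Polynomial (Polynomial ℤ)) (U : PowerSeries (O p)) (t : ℤ)
    (L : ℕ) (h : Ψ.eval₂ (toPS p) U = 0) :
    v p ((Ψ.eval₂ (evO p t) ((PowerSeries.trunc L U).eval ((t : ℤ) : O p)) : O p) : Qb) ≤
      v p (t : Qb) ^ L := by
  set P : Polynomial (O p) :=
    Ψ.eval₂ (Polynomial.mapRingHom (Int.castRingHom (O p))) (PowerSeries.trunc L U) with hP
  have h1 : (Polynomial.coeToPowerSeries.ringHom P : PowerSeries (O p)) =
      (Ψ.map (toPS p)).eval (Polynomial.coeToPowerSeries.ringHom (PowerSeries.trunc L U)) := by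
    rw [hP, Polynomial.hom_eval₂, Polynomial.eval_map]
    rfl
  have h2 : (PowerSeries.X : PowerSeries (O p)) ^ L ∣ Polynomial.coeToPowerSeries.ringHom P := by
    have h3 : (Polynomial.coeToPowerSeries.ringHom (PowerSeries.trunc L U) : PowerSeries (O p)) - U ∣
        (Ψ.map (toPS p)).eval (Polynomial.coeToPowerSeries.ringHom (PowerSeries.trunc L U)) -
          (Ψ.map (toPS p)).eval U := Polynomial.sub_dvd_eval_sub _ _ _
    rw [← h1, Polynomial.eval_map, h, sub_zero] at h3
    exact (X_pow_dvd_sub_trunc U L).trans h3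
  have h4 : (Polynomial.X : Polynomial (O p)) ^ L ∣ P := by
    rw [Polynomial.X_pow_dvd_iff]
    intro d hd
    rw [PowerSeries.X_pow_dvd_iff] at h2
    have := h2 d hd
    rw [Polynomial.coeToPowerSeries.ringHom_apply, Polynomial.coeff_coe] at this
    exact this
  obtain ⟨Q, hQ⟩ := h4
  have h5 : Ψ.eval₂ (evO p t) ((PowerSeries.trunc L U).eval ((t : ℤ) : O p)) =
      ((t : ℤ) : O p) ^ L * Q.eval ((t : ℤ) : O p) := by
    have h6 : Polynomial.evalRingHom ((t : ℤ) : O p) P =
        ((t : ℤ) : O p) ^ L * Q.eval ((t : ℤ) : O p) := by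
      rw [hQ]
      simp
    rw [← h6, hP, Polynomial.hom_eval₂]
    rfl
  rw [h5]
  have h7 : ((((t : ℤ) : O p) ^ L * Q.eval ((t : ℤ) : O p) : O p) : Qb) =
      (t : Qb) ^ L * ((Q.eval ((t : ℤ) : O p) : O p) : Qb) := by
    rw [← coe_int p t]
    rfl
  rw [h7, v_mul, v_pow]
  calc v p (t : Qb) ^ L * v p ((Q.eval ((t : ℤ) : O p) : O p) : Qb)
      ≤ v p (t : Qb) ^ L * 1 :=
        mul_le_mul_of_nonneg_left (Q.eval ((t : ℤ) : O p)).2 (pow_nonneg (v_nonneg p _) L)
    _ = v p (t : Qb) ^ L := mul_one _

theorem v_trunc_sub_lt (p : Nat.Primes) (U : PowerSeries (O p)) (t : ℤ) (ht : v p (t : Qb) < 1)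
    (L : ℕ) (hL : 0 < L) :
    v p ((((PowerSeries.trunc L U).eval ((t : ℤ) : O p) : O p) : Qb) -
      ((PowerSeries.constantCoeff U : O p) : Qb)) < 1 := by
  set q := PowerSeries.trunc L U with hq
  have h1 : q.coeff 0 = PowerSeries.constantCoeff U := by
    rw [hq, PowerSeries.coeff_trunc, if_pos hL, PowerSeries.coeff_zero_eq_constantCoeff_apply]
  have h2 : q.eval ((t : ℤ) : O p) - PowerSeries.constantCoeff U =
      q.divX.eval ((t : ℤ) : O p) * ((t : ℤ) : O p) := by
    have h3 := congrArg (Polynomial.eval ((t : ℤ) : O p)) (Polynomial.divX_mul_X_add q)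
    rw [Polynomial.eval_add, Polynomial.eval_mul, Polynomial.eval_X, Polynomial.eval_C, h1] at h3
    rw [← h3]
    ring
  have h4 : (((q.eval ((t : ℤ) : O p) : O p) : Qb) - ((PowerSeries.constantCoeff U : O p) : Qb)) =
      ((q.divX.eval ((t : ℤ) : O p) : O p) : Qb) * (t : Qb) := by
    have := congrArg (fun x : O p => (x : Qb)) h2
    rw [← coe_int p t]
    exact this
  rw [h4, v_mul]
  calc v p ((q.divX.eval ((t : ℤ) : O p) : O p) : Qb) * v p (t : Qb)
      ≤ 1 * v p (t : Qb) :=
        mul_le_mul_of_nonneg_right (q.divX.eval ((t : ℤ) : O p)).2 (v_nonneg p _)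
    _ < 1 := by rw [one_mul]; exact ht

theorem v_multiset_prod (p : Nat.Primes) (s : Multiset Qb) :
    v p s.prod = (s.map (v p)).prod := by
  induction s using Multiset.induction_on with
  | empty => simp
  | cons a s ih => rw [Multiset.prod_cons, v_mul, ih, Multiset.map_cons, Multiset.prod_cons]

theorem v_prod (p : Nat.Primes) {ι : Type} (s : Finset ι) (f : ι → Qb) :
    v p (∏ i ∈ s, f i) = ∏ i ∈ s, v p (f i) := by
  classical
  induction s using Finset.induction_on with
  | empty => simp
  | insert a s ha ih => rw [Finset.prod_insert ha, Finset.prod_insert ha, v_mul, ih]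

/-- a small value of a monic polynomial is close to a root -/
theorem exists_root_near (p : Nat.Primes) (q : Polynomial Qb) (hq : q.Monic) (x : Qb)
    (h : v p (q.eval x) < 1) : ∃ r : Qb, q.IsRoot r ∧ v p (x - r) < 1 := by
  by_contra hc
  push Not at hc
  have hs : q = (q.roots.map fun a => Polynomial.X - Polynomial.C a).prod :=
    (IsAlgClosed.splits q).eq_prod_roots_of_monic hq
  have h1 : q.eval x = (q.roots.map fun a => x - a).prod := by
    conv_lhs => rw [hs]
    rw [Polynomial.eval_multiset_prod, Multiset.map_map]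
    congr 1
    apply Multiset.map_congr rfl
    intro a _
    simp
  rw [h1, v_multiset_prod, Multiset.map_map] at h
  have h2 : (1 : ℝ) ≤ (Multiset.map (v p ∘ fun a => x - a) q.roots).prod := by
    apply Multiset.one_le_prod
    intro y hy
    obtain ⟨a, ha, rfl⟩ := Multiset.mem_map.mp hy
    exact hc a ((Polynomial.mem_roots hq.ne_zero).mp ha)
  exact absurd h (not_lt.mpr h2)

theorem pf_ROO : T_ROO := by
  classical
  intro p Ψ E T hΨ hfac hunit t ht
  set q : Polynomial Qb := (Ψ.map (Polynomial.evalRingHom t)).map (Int.castRingHom Qb) with hqdef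
  have hqm : q.Monic := (hΨ.map _).map _
  have hdeg : Ψ.natDegree = E := by
    have h1 : (Ψ.map (toPS p)).natDegree = Ψ.natDegree := hΨ.natDegree_map _
    rw [← h1, hfac, Polynomial.natDegree_finset_prod_X_sub_C_eq_card]
    simp
  have hqdeg : q.natDegree = E := by
    rw [hqdef, (hΨ.map _).natDegree_map, hΨ.natDegree_map, hdeg]
  have hroot : ∀ a, Ψ.eval₂ (toPS p) (T a) = 0 := by
    intro a
    rw [← Polynomial.eval_map, hfac, Polynomial.eval_prod]
    apply Finset.prod_eq_zero (Finset.mem_univ a)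
    simp
  -- small values
  have hsmall : ∀ a L, v p (q.eval (((PowerSeries.trunc L (T a)).eval ((t : ℤ) : O p) : O p) : Qb)) ≤
      v p (t : Qb) ^ L := by
    intro a L
    rw [hqdef, eval_map_eq]
    exact v_evO_le p Ψ (T a) t L (hroot a)
  have hex : ∀ a, ∃ r : Qb, q.IsRoot r ∧ v p (((PowerSeries.constantCoeff (T a) : O p) : Qb) - r) < 1 := by
    intro a
    have h1 := hsmall a 1
    rw [pow_one] at h1
    obtain ⟨r, hr, hr'⟩ := exists_root_near p q hqm _ (h1.trans_lt ht)
    refine ⟨r, hr, ?_⟩
    have h2 := v_trunc_sub_lt p (T a) t ht 1 one_pos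
    rw [v_sub_comm] at h2
    have h3 : ((PowerSeries.constantCoeff (T a) : O p) : Qb) - r =
        (((PowerSeries.constantCoeff (T a) : O p) : Qb) -
          (((PowerSeries.trunc 1 (T a)).eval ((t : ℤ) : O p) : O p) : Qb)) +
        ((((PowerSeries.trunc 1 (T a)).eval ((t : ℤ) : O p) : O p) : Qb) - r) := by ring
    rw [h3]
    exact v_add_lt p h2 hr'
  choose ρ hρ hρ' using hex
  have hcc : ∀ a b, a ≠ b → v p (((PowerSeries.constantCoeff (T a) : O p) : Qb) -
      ((PowerSeries.constantCoeff (T b) : O p) : Qb)) = 1 := by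
    intro a b hab
    have := (isUnit_O p).mp (hunit a b hab)
    exact this
  have hinj : Function.Injective ρ := by
    intro a b hab
    by_contra hne
    have h1 := hcc a b hne
    have h2 : ((PowerSeries.constantCoeff (T a) : O p) : Qb) -
        ((PowerSeries.constantCoeff (T b) : O p) : Qb) =
        (((PowerSeries.constantCoeff (T a) : O p) : Qb) - ρ a) -
        (((PowerSeries.constantCoeff (T b) : O p) : Qb) - ρ b) := by rw [hab]; ring
    rw [h2] at h1
    exact absurd h1 (ne_of_lt (v_sub_lt p (hρ' a) (hρ' b)))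
  have hprod : q = ∏ a, (Polynomial.X - Polynomial.C (ρ a)) := by
    have hd : (∏ a, (Polynomial.X - Polynomial.C (ρ a))) ∣ q := by
      apply Finset.prod_dvd_of_coprime
      · intro a _ b _ hab
        exact Polynomial.pairwise_coprime_X_sub_C hinj hab
      · intro a _
        exact Polynomial.dvd_iff_isRoot.mpr (hρ a)
    symm
    have hm : (∏ a, (Polynomial.X - Polynomial.C (ρ a))).Monic :=
      Polynomial.monic_prod_X_sub_C _ _
    apply Polynomial.eq_of_monic_of_associated hm hqm
    apply Polynomial.associated_of_dvd_of_natDegree_le hd hqm.ne_zero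
    rw [hqdeg, Polynomial.natDegree_finset_prod_X_sub_C_eq_card]
    simp
  refine ⟨ρ, hprod, fun a => ?_⟩
  have hle : v p (ρ a) ≤ 1 := by
    have h1 : ρ a = ((PowerSeries.constantCoeff (T a) : O p) : Qb) -
        (((PowerSeries.constantCoeff (T a) : O p) : Qb) - ρ a) := by ring
    rw [h1]
    exact v_sub_le' p (PowerSeries.constantCoeff (T a)).2 (hρ' a).le
  refine ⟨hle, fun L => ?_⟩
  rcases Nat.eq_zero_or_pos L with hL | hL
  · subst hL
    rw [PowerSeries.trunc_zero', Polynomial.eval_zero, pow_zero]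
    simpa using hle
  · set w : Qb := (((PowerSeries.trunc L (T a)).eval ((t : ℤ) : O p) : O p) : Qb) with hw
    have h1 : q.eval w = ∏ b, (w - ρ b) := by
      rw [hprod, Polynomial.eval_prod]
      apply Finset.prod_congr rfl
      intro b _
      simp
    have h2 : v p (q.eval w) = v p (w - ρ a) := by
      rw [h1, v_prod, ← Finset.mul_prod_erase _ _ (Finset.mem_univ a)]
      have h3 : ∏ b ∈ Finset.univ.erase a, v p (w - ρ b) = 1 := by
        apply Finset.prod_eq_one
        intro b hb
        have hba : a ≠ b := (Finset.ne_of_mem_erase hb).symm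
        have h4 : v p (w - ρ b) = v p (((PowerSeries.constantCoeff (T a) : O p) : Qb) -
            ((PowerSeries.constantCoeff (T b) : O p) : Qb)) := by
          apply v_eq_of_sub_lt
          rw [hcc a b hba]
          have h5 : w - ρ b - (((PowerSeries.constantCoeff (T a) : O p) : Qb) -
              ((PowerSeries.constantCoeff (T b) : O p) : Qb)) =
              (w - ((PowerSeries.constantCoeff (T a) : O p) : Qb)) +
              (((PowerSeries.constantCoeff (T b) : O p) : Qb) - ρ b) := by ring
          rw [h5]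
          exact v_add_lt p (v_trunc_sub_lt p (T a) t ht L hL) (hρ' b)
        rw [h4, hcc a b hba]
      rw [h3, mul_one]
    rw [v_sub_comm, ← h2]
    exact hsmall a L

end Pool.Agent.H41.HIT
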